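import Pool.Agent.Lib.MP_0d68c6_nt.Ap
import Pool.Agent.Lib.MP_0d68c6_nt.Tab

/-!
Every residue class contains a full arithmetic progression of numbers which are represented by all
the 32 forms of the question.
-/

namespace Pool.Agent.Results.MP_0d68c6_nt.Progressions

open Pool.Agent.Lib.MP_0d68c6_nt

/-- One form. -/
theorem one_form {q : ℤ × ℤ × ℤ × ℤ} (hq : q ∈ forms) {m : ℕ} (hm : 0 < m) (r : ℕ) :
    ∃ A M : ℕ, A ≡ r [MOD m] ∧ 0 < M ∧ m ∣ M ∧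
      ∀ j : ℕ, Rep q.1 q.2.1 q.2.2.1 q.2.2.2 (A + M * j) := by
  obtain ⟨⟨w, hw⟩, ⟨ha, hb, hc, hd⟩, hT⟩ := tab_ok hq
  obtain ⟨v, k, hv, hvr⟩ := loc hw hT hm r
  obtain ⟨p1, p2, p3, p4, h1, h2, h3, h4, hp⟩ := exists_pos ha hb hc hd
  have hN0 : 0 < q.1 ^ 2 + q.2.1 ^ 2 + q.2.2.1 ^ 2 + q.2.2.2 ^ 2 := by positivity
  obtain ⟨A, M, hM, hj⟩ := ap h1 h2 h3 h4 hp (v1 := v.1) (v2 := v.2.1) (v3 := v.2.2.1)
    (v4 := v.2.2.2) (k := k) hv hN0 hm
  have h9 : dt v v = v.1 ^ 2 + v.2.1 ^ 2 + v.2.2.1 ^ 2 + v.2.2.2 ^ 2 := by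
    simp only [dt]
    ring
  have key : ∀ j : ℕ, A + M * j ≡ r [MOD m] := by
    intro j
    rw [← Int.natCast_modEq_iff]
    refine (hj j).1.trans ?_
    refine (Int.modEq_iff_dvd.2 ?_).symm
    rw [← h9]
    exact hvr
  have h0 : A ≡ r [MOD m] := by simpa using key 0
  have h1' : A + M ≡ r [MOD m] := by simpa using key 1
  refine ⟨A, M, h0, hM, ?_, fun j => (hj j).2⟩
  have h2' : A + M ≡ A + 0 [MOD m] := h1'.trans h0.symm
  exact (Nat.modEq_zero_iff_dvd).1 (Nat.ModEq.add_left_cancel' A h2')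

/-- Several forms. -/
theorem several (l : List (ℤ × ℤ × ℤ × ℤ)) : (∀ q ∈ l, q ∈ forms) → ∀ m r : ℕ, 0 < m →
    ∃ A M : ℕ, A ≡ r [MOD m] ∧ 0 < M ∧ m ∣ M ∧
      ∀ j : ℕ, ∀ q ∈ l, Rep q.1 q.2.1 q.2.2.1 q.2.2.2 (A + M * j) := by
  induction l with
  | nil => exact fun _ m r hm => ⟨r, m, rfl, hm, dvd_rfl, fun j q hq => absurd hq (by simp)⟩
  | cons q l ih =>
    intro hl m r hm
    obtain ⟨A1, M1, hA1, hM1, hd1, hj1⟩ := ih (fun q' h => hl q' (List.mem_cons_of_mem _ h)) m r hm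
    obtain ⟨A2, M2, hA2, hM2, hd2, hj2⟩ := one_form (hl q List.mem_cons_self) hM1 A1
    refine ⟨A2 + M2 * A1, M2, ?_, hM2, hd1.trans hd2, fun j q' hq' => ?_⟩
    · have h1 : A2 + M2 * A1 ≡ A2 + 0 [MOD M1] :=
        Nat.ModEq.add_left _ ((Nat.modEq_zero_iff_dvd).2 (hd2.mul_right _))
      exact ((h1.trans hA2).of_dvd hd1).trans hA1
    · rcases List.mem_cons.1 hq' with rfl | hq'
      · have e : A2 + M2 * A1 + M2 * j = A2 + M2 * (A1 + j) := by ring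
        rw [e]
        exact hj2 _
      · have h1 : A1 ≡ A2 + M2 * A1 + M2 * j [MOD M1] := by
          have h2 : A2 + M2 * A1 + M2 * j ≡ A2 + 0 [MOD M1] := by
            rw [Nat.add_assoc]
            refine Nat.ModEq.add_left _ ((Nat.modEq_zero_iff_dvd).2 ?_)
            exact dvd_add (hd2.mul_right _) (hd2.mul_right _)
          exact (h2.trans hA2).symm
        have h3 : A1 ≤ A2 + M2 * A1 + M2 * j := by
          have : A1 ≤ M2 * A1 := Nat.le_mul_of_pos_left _ hM2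
          omega
        obtain ⟨i, hi⟩ := (Nat.modEq_iff_dvd' h3).1 h1
        have h4 : A2 + M2 * A1 + M2 * j = A1 + M1 * i := by omega
        rw [h4]
        exact hj1 i q' hq'

theorem result : ∀ m r : ℕ, 0 < m → ∃ A M : ℕ, A ≡ r [MOD m] ∧ 0 < M ∧ m ∣ M ∧
    ∀ j : ℕ, ∀ q ∈ forms, Rep q.1 q.2.1 q.2.2.1 q.2.2.2 (A + M * j) :=
  several forms fun _ h => h

end Pool.Agent.Results.MP_0d68c6_nt.Progressions
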